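import Mathlib
import Pool.Agent.MP_590456_lc_Model

open MeasureTheory ProbabilityTheory
open scoped ENNReal NNReal
open Pool.Agent.MP_590456_lc_Model

namespace Pool.Agent.Results.MP_590456_lc.ConjectureFails

/-- **The conjecture fails.** For every error rate `ε` (no condition `ε < 1/2` is needed), every algorithm, every constant `c`,
every number `L ≥ 1` of time steps and every exponent `δ < 1` (for instance `δ = 2/3`) there is a
(non-adaptive) adversary for which `E[C] > c (E[T]^δ + E[P_G])`. -/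
theorem result (ε : unitInterval) (A : Algorithm) (c : ℝ≥0)
    (L : ℕ) (hL : 1 ≤ L) (δ : ℝ) (hδ0 : 0 < δ) (hδ1 : δ < 1) :
    ∃ s : Schedule, IsValid L s ∧
      (c : ℝ≥0∞) * ((expT A ε L s) ^ δ + expPG L s) < expC A ε L s := by
  -- choice of the parameters
  obtain ⟨a, ha⟩ := exists_nat_ge ((1 + δ) / (1 - δ))
  obtain ⟨M, hM⟩ := exists_nat_gt (2 * (c : ℝ))
  have hδ2 : 0 < 1 - δ := by linarith
  have ha' : ((a : ℝ) + 1) * δ ≤ a - 1 := by
    rw [div_le_iff₀ hδ2] at ha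
    nlinarith
  have ha1 : 1 ≤ a := by
    by_contra hcon
    have : a = 0 := by omega
    subst this
    push_cast at ha'
    nlinarith
  obtain ⟨b, rfl⟩ : ∃ b, a = b + 1 := ⟨a - 1, by omega⟩
  have hM0 : 1 ≤ M := by
    by_contra hcon
    have : M = 0 := by omega
    subst this
    have := c.2
    push_cast at hM
    linarith
  have hL0 : (L : ℝ≥0∞) ≠ 0 := by
    simp; omega
  have hLt : (L : ℝ≥0∞) ≠ ⊤ := ENNReal.natCast_ne_top L
  obtain ⟨s, h1, h2, h3, h4, h5, h6⟩ := greedy A ε (M : ℝ≥0∞) (List.replicate (L * M ^ b) 1)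
    (by rw [List.pairwise_replicate]; right; exact le_rfl) (L * M ^ (b + 1)) []
  refine ⟨s, ⟨fun p hp => ?_, h4⟩, ?_⟩
  · have := List.eq_of_mem_replicate (h3 p hp)
    omega
  have hPG : expPG L s = (M : ℝ≥0∞) ^ b := by
    unfold expPG
    rw [numGood_eq, h1, List.length_replicate]
    push_cast
    rw [mul_comm, ENNReal.mul_div_cancel_right hL0 hLt]
  have hC : (M : ℝ≥0∞) ^ (b + 1) ≤ expC A ε L s := by
    rw [expC_eq]
    have h7 : (L : ℝ≥0∞) * (M : ℝ≥0∞) ^ (b + 1) ≤ (numSpam s : ℝ≥0∞) + costFrom A ε true [] s := by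
      rcases h6 with h6 | h6
      · rw [h6]
        push_cast
        exact le_self_add
      · rw [List.length_replicate] at h6
        push_cast at h6
        calc (L : ℝ≥0∞) * (M : ℝ≥0∞) ^ (b + 1) = L * M ^ b * M := by ring
          _ ≤ _ := h6
          _ ≤ _ := le_add_self
    rw [ENNReal.le_div_iff_mul_le (Or.inl hL0) (Or.inl hLt)]
    rwa [mul_comm]
  have hT : expT A ε L s ≤ (M : ℝ≥0∞) ^ (b + 2) := by
    rw [expT_eq]
    rw [ENNReal.div_le_iff_le_mul (Or.inl hL0) (Or.inl hLt)]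
    refine h5.trans ?_
    calc (numSpam s : ℝ≥0∞) * M ≤ ((L * M ^ (b + 1) : ℕ) : ℝ≥0∞) * M := by
          gcongr
      _ = (M : ℝ≥0∞) ^ (b + 2) * L := by push_cast; ring
  have hM1 : (1 : ℝ≥0∞) ≤ (M : ℝ≥0∞) := by exact_mod_cast hM0
  have hTδ : (expT A ε L s) ^ δ ≤ (M : ℝ≥0∞) ^ b := by
    calc (expT A ε L s) ^ δ ≤ ((M : ℝ≥0∞) ^ (b + 2)) ^ δ := ENNReal.rpow_le_rpow hT hδ0.le
      _ = (M : ℝ≥0∞) ^ (((b + 2 : ℕ) : ℝ) * δ) := by
          rw [ENNReal.rpow_mul, ENNReal.rpow_natCast]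
      _ ≤ (M : ℝ≥0∞) ^ (b : ℝ) := by
          apply ENNReal.rpow_le_rpow_of_exponent_le hM1
          push_cast at ha' ⊢
          linarith
      _ = (M : ℝ≥0∞) ^ b := ENNReal.rpow_natCast _ _
  have hcM : (c : ℝ≥0∞) * 2 < M := by
    have : c * 2 < (M : ℝ≥0) := by
      rw [← NNReal.coe_lt_coe]
      push_cast
      linarith
    exact_mod_cast this
  calc (c : ℝ≥0∞) * ((expT A ε L s) ^ δ + expPG L s)
      ≤ (c : ℝ≥0∞) * ((M : ℝ≥0∞) ^ b + (M : ℝ≥0∞) ^ b) := by
        rw [hPG]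
        gcongr
    _ = (c : ℝ≥0∞) * 2 * (M : ℝ≥0∞) ^ b := by ring
    _ < M * (M : ℝ≥0∞) ^ b := by
        apply ENNReal.mul_lt_mul_left
        · exact pow_ne_zero _ (by simp; omega)
        · exact ENNReal.pow_ne_top (ENNReal.natCast_ne_top M)
        · exact hcM
    _ = (M : ℝ≥0∞) ^ (b + 1) := by ring
    _ ≤ _ := hC

end Pool.Agent.Results.MP_590456_lc.ConjectureFails
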