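import Mathlib
import Pool.Agent.MP_590456_lc_Model

open MeasureTheory ProbabilityTheory
open scoped ENNReal NNReal
open Pool.Agent.MP_590456_lc_Model

namespace Pool.Agent.Results.MP_590456_lc.SqrtLowerBound

/-- **Lower bound `E[C] ≥ (E[T] E[P_G])^(1/2)`.**  Let the time steps of the good posts be
prescribed in advance, by an arbitrary nonempty nondecreasing list `gs` of time steps in
`1, ..., L`.  For every algorithm and every `N` there is a (non-adaptive) adversary which has the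
good posts exactly at these times, publishes at most `N` spam posts, and for which `E[C] ≥ N / L`
and `E[T] * E[P_G] ≤ (N / L)^2`. -/
theorem result (ε : unitInterval) (A : Algorithm) (L : ℕ) (hL : 1 ≤ L) (gs : List ℕ)
    (hne : gs ≠ []) (hrange : ∀ t ∈ gs, 1 ≤ t ∧ t ≤ L) (hsort : gs.Pairwise (fun a b => a ≤ b))
    (N : ℕ) :
    ∃ s : Schedule, IsValid L s ∧ goodTimes s = gs ∧ numSpam s ≤ N ∧
      (N : ℝ≥0∞) / L ≤ expC A ε L s ∧ expT A ε L s * expPG L s ≤ ((N : ℝ≥0∞) / L) ^ 2 := by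
  have hL0 : (L : ℝ≥0∞) ≠ 0 := by
    simp; omega
  have hLt : (L : ℝ≥0∞) ≠ ⊤ := ENNReal.natCast_ne_top L
  have hg0 : (gs.length : ℝ≥0∞) ≠ 0 := by
    simpa using hne
  have hgt : (gs.length : ℝ≥0∞) ≠ ⊤ := ENNReal.natCast_ne_top _
  obtain ⟨s, h1, h2, h3, h4, h5, h6⟩ := greedy A ε ((N : ℝ≥0∞) / gs.length) gs hsort N []
  refine ⟨s, ⟨fun p hp => hrange _ (h3 p hp), h4⟩, h1, h2, ?_, ?_⟩
  · rw [expC_eq]
    gcongr
    rcases h6 with h6 | h6
    · rw [h6]
      exact le_self_add
    · rw [ENNReal.mul_div_cancel hg0 hgt] at h6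
      exact h6.trans le_add_self
  · rw [expT_eq]
    unfold expPG
    rw [numGood_eq, h1]
    have h7 : costFrom A ε false [] s * gs.length ≤ (N : ℝ≥0∞) * N := by
      calc costFrom A ε false [] s * gs.length
          ≤ (numSpam s * ((N : ℝ≥0∞) / gs.length)) * gs.length := by gcongr
        _ = numSpam s * ((N : ℝ≥0∞) / gs.length * gs.length) := by ring
        _ = numSpam s * N := by rw [ENNReal.div_mul_cancel hg0 hgt]
        _ ≤ N * N := by
          gcongr
    calc costFrom A ε false [] s / L * (gs.length / L)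
        = (costFrom A ε false [] s * gs.length) * ((L : ℝ≥0∞)⁻¹ * (L : ℝ≥0∞)⁻¹) := by
          simp only [div_eq_mul_inv]; ring
      _ ≤ ((N : ℝ≥0∞) * N) * ((L : ℝ≥0∞)⁻¹ * (L : ℝ≥0∞)⁻¹) := by gcongr
      _ = ((N : ℝ≥0∞) / L) ^ 2 := by
          simp only [div_eq_mul_inv]; ring

end Pool.Agent.Results.MP_590456_lc.SqrtLowerBound
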